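import Pool.Agent.H32.RK.TargetsA

/-!
# MP_63b6b1_nt, number fields: row HEC of the board `hpk_modules`

A lower bound for the density modulo a prime power (adapted from `Pool.Agent.H58.RQ.HEC`).
-/

set_option autoImplicit false

open Finset NumberField Pool.Agent.H32.RQ Pool.Agent.H32.RK

namespace Pool.Agent.H75.RK

section maps

variable {R S : Type} [CommRing R] [CommRing S]

theorem qf_map (g : R →+* S) {s : ℕ} (f : Mon s → R) (x : Fin s → R) :
    g (qf f x) = qf (fun p => g (f p)) (fun j => g (x j)) := by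
  simp only [qf, map_sum, map_mul]

theorem dq_map (g : R →+* S) {s : ℕ} (f : Mon s → R) (x : Fin s → R) (j : Fin s) :
    g (dq f x j) = dq (fun p => g (f p)) (fun j => g (x j)) j := by
  simp only [dq, map_sum, map_mul, map_add]
  refine Finset.sum_congr rfl fun p _ => ?_
  congr 1
  congr 1 <;> split_ifs <;> simp

theorem jm_map (g : R →+* S) {s : ℕ} (c : Fin 2 → Mon s → R) (x : Fin s → R) (j l : Fin s) :
    g (jm c x j l) = jm (fun i p => g (c i p)) (fun j => g (x j)) j l := by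
  simp only [jm, map_sub, map_mul, dq_map]

theorem qf_cong {s : ℕ} (I : Ideal R) (f : Mon s → R) (x y : Fin s → R)
    (h : ∀ j, y j - x j ∈ I) : qf f y - qf f x ∈ I := by
  rw [← Ideal.Quotient.eq, qf_map, qf_map]
  have : (fun j => Ideal.Quotient.mk I (y j)) = fun j => Ideal.Quotient.mk I (x j) := by
    funext j
    exact Ideal.Quotient.eq.2 (h j)
  rw [this]

theorem jm_cong {s : ℕ} (I : Ideal R) (c : Fin 2 → Mon s → R) (x y : Fin s → R)
    (h : ∀ j, y j - x j ∈ I) (j l : Fin s) : jm c y j l - jm c x j l ∈ I := by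
  rw [← Ideal.Quotient.eq, jm_map, jm_map]
  have : (fun j => Ideal.Quotient.mk I (y j)) = fun j => Ideal.Quotient.mk I (x j) := by
    funext j
    exact Ideal.Quotient.eq.2 (h j)
  rw [this]

end maps

theorem card_compl_two {s : ℕ} {a b : Fin s} (hab : a ≠ b) :
    Fintype.card {j : Fin s // j ≠ a ∧ j ≠ b} = s - 2 := by
  classical
  rw [Fintype.card_subtype]
  have : (Finset.univ.filter fun j : Fin s => j ≠ a ∧ j ≠ b) = Finset.univ \ {a, b} := by
    ext j
    simp [not_or]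
  rw [this, Finset.card_sdiff_of_subset (Finset.subset_univ _), Finset.card_pair hab,
    Finset.card_univ, Fintype.card_fin]

section K

variable {K : Type} [Field K] [NumberField K]

theorem absNorm_pos' (I : Ideal (𝓞 K)) (hI : I ≠ ⊥) : 0 < Ideal.absNorm I :=
  Nat.pos_of_ne_zero fun h => hI (Ideal.absNorm_eq_zero_iff.1 h)

theorem card_quot (I : Ideal (𝓞 K)) : Nat.card (𝓞 K ⧸ I) = Ideal.absNorm I := by
  rw [Ideal.absNorm_apply, Submodule.cardQuot_apply]

theorem card_map (I J : Ideal (𝓞 K)) (hIJ : I ≤ J) (_hJ : J ≠ ⊥) :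
    Nat.card (J.map (Ideal.Quotient.mk I)) * Ideal.absNorm J = Ideal.absNorm I := by
  have h1 := Submodule.card_eq_card_quotient_mul_card (J.map (Ideal.Quotient.mk I))
  have h2 : Nat.card ((𝓞 K ⧸ I) ⧸ J.map (Ideal.Quotient.mk I)) = Ideal.absNorm J := by
    rw [← card_quot]
    exact Nat.card_congr (DoubleQuot.quotQuotEquivQuotOfLE hIJ).toEquiv
  rw [← card_quot I, h1, h2]

theorem mem_pow_of_le (𝔭 : Ideal (𝓞 K)) {m n : ℕ} (h : m ≤ n) {a : 𝓞 K} (ha : a ∈ 𝔭 ^ n) :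
    a ∈ 𝔭 ^ m := Ideal.pow_le_pow_right h ha

end K

theorem pf_HEC (K : Type) [Field K] [NumberField K] (hHEN : T_HEN K) : T_HEC K := by
  classical
  intro s t k 𝔭 c hp hp0 htk hPR
  obtain ⟨x, ⟨i₀, hi₀⟩, hq, a, b, hj⟩ := hPR
  have hex : ∃ n : ℕ, jm c x a b ∉ 𝔭 ^ n := ⟨t, hj⟩
  have hab : a ≠ b := by
    rintro rfl
    apply hj
    simp [jm]
  obtain ⟨τ, hτt, hτ1, hτ2⟩ : ∃ τ : ℕ, τ < t ∧ jm c x a b ∈ 𝔭 ^ τ ∧
      jm c x a b ∉ 𝔭 ^ (τ + 1) := by
    have hf := Nat.find_spec hex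
    have hpos : Nat.find hex ≠ 0 := by
      intro h0
      rw [h0] at hf
      simp at hf
    obtain ⟨τ, hτ⟩ := Nat.exists_eq_succ_of_ne_zero hpos
    refine ⟨τ, ?_, ?_, ?_⟩
    · have : Nat.find hex ≤ t := Nat.find_min' hex hj
      omega
    · have := Nat.find_min hex (m := τ) (by omega)
      exact not_not.1 this
    · rw [hτ] at hf
      exact hf
  have hk0 : 𝔭 ^ k ≠ ⊥ := pow_ne_zero _ hp0
  have hmax : 𝔭.IsMaximal := hp.isMaximal hp0
  let I : Ideal (𝓞 K) := 𝔭 ^ k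
  let J : Ideal (𝓞 K ⧸ I) := (𝔭 ^ (2 * τ + 1)).map (Ideal.Quotient.mk I)
  have hJc : Nat.card J = Ideal.absNorm 𝔭 ^ (k - (2 * τ + 1)) := by
    have h1 := card_map (𝔭 ^ k) (𝔭 ^ (2 * τ + 1)) (Ideal.pow_le_pow_right (by omega))
      (pow_ne_zero _ hp0)
    rw [map_pow, map_pow] at h1
    have h2 : Ideal.absNorm 𝔭 ^ k = Ideal.absNorm 𝔭 ^ (k - (2 * τ + 1)) *
        Ideal.absNorm 𝔭 ^ (2 * τ + 1) := by
      rw [← pow_add]
      congr 1
      omega
    rw [h2] at h1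
    exact Nat.eq_of_mul_eq_mul_right (pow_pos (absNorm_pos' 𝔭 hp0) _) h1
  have : Finite (𝓞 K ⧸ I) := Ideal.finiteQuotientOfFreeOfNeBot _ hk0
  have hrep : ∀ v : J, ∃ r : 𝓞 K, r ∈ 𝔭 ^ (2 * τ + 1) ∧ Ideal.Quotient.mk I r = v := by
    intro v
    have h1 := v.2
    rw [Ideal.mem_map_iff_of_surjective _ Ideal.Quotient.mk_surjective] at h1
    obtain ⟨r, hr, hr2⟩ := h1
    exact ⟨r, hr, hr2⟩
  choose rep hrep1 hrep2 using hrep
  let xw : ({j : Fin s // j ≠ a ∧ j ≠ b} → J) → Fin s → 𝓞 K := fun w j =>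
    x j + (if h : j ≠ a ∧ j ≠ b then rep (w ⟨j, h⟩) else 0)
  have hxw : ∀ w j, xw w j - x j ∈ 𝔭 ^ (2 * τ + 1) := by
    intro w j
    simp only [xw, add_sub_cancel_left]
    split_ifs with h
    · exact hrep1 _
    · exact Ideal.zero_mem _
  have hy : ∀ w, ∃ y : Fin s → 𝓞 K, (∀ j, j ≠ a → j ≠ b → y j = xw w j) ∧
      (∀ j, y j - xw w j ∈ 𝔭 ^ (τ + 1)) ∧ ∀ i, qf (c i) y ∈ 𝔭 ^ k := by
    intro w
    have h1 := jm_cong (𝔭 ^ (2 * τ + 1)) c x (xw w) (hxw w) a b
    refine hHEN s τ k 𝔭 c (xw w) a b hp hp0 ?_ ?_ ?_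
    · have := Ideal.add_mem _ (mem_pow_of_le 𝔭 (by omega : τ ≤ 2 * τ + 1) h1) hτ1
      simpa using this
    · intro h2
      apply hτ2
      have := Ideal.sub_mem _ h2 (mem_pow_of_le 𝔭 (by omega : τ + 1 ≤ 2 * τ + 1) h1)
      simpa using this
    · intro i
      have h3 := qf_cong (𝔭 ^ (2 * τ + 1)) (c i) x (xw w) (hxw w)
      have := Ideal.add_mem _ h3 (mem_pow_of_le 𝔭 (by omega : 2 * τ + 1 ≤ 2 * t) (hq i))
      simpa using this
  choose y hy1 hy2 hy3 using hy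
  let g : ({j : Fin s // j ≠ a ∧ j ≠ b} → J) → Fin s → 𝓞 K ⧸ I :=
    fun w j => Ideal.Quotient.mk I (y w j)
  have hg : Function.Injective g := by
    intro w w' h
    funext ⟨j, hj1, hj2⟩
    have h1 : Ideal.Quotient.mk I (y w j) = Ideal.Quotient.mk I (y w' j) := congrFun h j
    rw [hy1 w j hj1 hj2, hy1 w' j hj1 hj2] at h1
    simp only [xw] at h1
    rw [dif_pos ⟨hj1, hj2⟩, dif_pos ⟨hj1, hj2⟩, map_add, map_add, hrep2, hrep2] at h1
    exact Subtype.ext (add_left_cancel h1)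
  have hmem : ∀ w, Prm (g w) ∧ ∀ i, qf (cq I c i) (g w) = 0 := by
    intro w
    refine ⟨?_, ?_⟩
    · have h1 : y w i₀ ∉ 𝔭 := by
        intro h
        apply hi₀
        have e1 : y w i₀ - xw w i₀ ∈ 𝔭 := by
          have := mem_pow_of_le 𝔭 (by omega : 1 ≤ τ + 1) (hy2 w i₀)
          rwa [pow_one] at this
        have e2 : xw w i₀ - x i₀ ∈ 𝔭 := by
          have := mem_pow_of_le 𝔭 (by omega : 1 ≤ 2 * τ + 1) (hxw w i₀)
          rwa [pow_one] at this
        have e3 := Ideal.sub_mem _ h (Ideal.add_mem _ e1 e2)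
        have e4 : y w i₀ - (y w i₀ - xw w i₀ + (xw w i₀ - x i₀)) = x i₀ := by ring
        rwa [e4] at e3
      have h2 : Ideal.span {y w i₀} ⊔ 𝔭 = ⊤ := by
        by_contra h3
        have h4 : 𝔭 = Ideal.span {y w i₀} ⊔ 𝔭 := hmax.eq_of_le h3 le_sup_right
        apply h1
        rw [h4]
        exact (le_sup_left : Ideal.span {y w i₀} ≤ _) (Ideal.subset_span rfl)
      have h3 : IsCoprime (Ideal.span {y w i₀}) (𝔭 ^ k) :=
        (Ideal.isCoprime_iff_sup_eq.2 h2).pow_right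
      obtain ⟨u, hu, v, hv, huv⟩ := Ideal.isCoprime_iff_exists.1 h3
      obtain ⟨r, hr⟩ := Ideal.mem_span_singleton'.1 hu
      refine ⟨Pi.single i₀ (Ideal.Quotient.mk I r), ?_⟩
      rw [Finset.sum_eq_single i₀]
      · simp only [Pi.single_eq_same, g]
        rw [← map_mul, hr, ← map_one (Ideal.Quotient.mk I)]
        refine Ideal.Quotient.eq.2 ?_
        have h5 : u - 1 = - v := by rw [← huv]; ring
        rw [h5]
        exact neg_mem hv
      · intro j _ hj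
        rw [Pi.single_eq_of_ne hj, zero_mul]
      · intro h
        exact absurd (Finset.mem_univ _) h
    · intro i
      have h1 : qf (cq I c i) (g w) = Ideal.Quotient.mk I (qf (c i) (y w)) := by
        rw [qf_map]
        rfl
      rw [h1]
      exact Ideal.Quotient.eq_zero_iff_mem.2 (hy3 w i)
  have hcard : Nat.card ({j : Fin s // j ≠ a ∧ j ≠ b} → J) ≤ am (cq I c) := by
    refine Nat.card_le_card_of_injective
      (β := {z : Fin s → 𝓞 K ⧸ I // Prm z ∧ ∀ i, qf (cq I c i) z = 0})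
      (fun w => ⟨g w, hmem w⟩) ?_
    intro w w' h
    exact hg (congrArg Subtype.val h)
  refine le_trans ?_ hcard
  rw [Nat.card_fun, hJc, Nat.card_eq_fintype_card, card_compl_two hab, ← pow_mul]
  exact Nat.pow_le_pow_right (absNorm_pos' 𝔭 hp0) (Nat.mul_le_mul_right _ (by omega))

end Pool.Agent.H75.RK
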