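import Pool.Agent.H32.RK.TargetsA

/-!
# MP_63b6b1_nt, number fields: row PUV of the board `hpk_modules`

The number of the pairs of proportional vectors over a finite local principal ideal ring.
-/

set_option autoImplicit false

open Finset NumberField Pool.Agent.H32.RQ Pool.Agent.H32.RK

namespace Pool.Agent.H75.RK

section

variable {R : Type} [CommRing R]

theorem gen [IsLocalRing R] [IsPrincipalIdealRing R] (n : ℕ) (hn : 1 ≤ n) (u : Fin n → R) :
    ∃ (k : Fin n) (b : Fin n → R), ∀ l, u l = b l * u k := by
  classical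
  obtain ⟨r, hr⟩ := (IsPrincipalIdealRing.principal (Ideal.span (Set.range u))).principal
  have h1 : ∀ l, ∃ a, u l = a * r := by
    intro l
    have h2 : u l ∈ Ideal.span (Set.range u) := Ideal.subset_span ⟨l, rfl⟩
    rw [hr] at h2
    obtain ⟨a, ha⟩ := Submodule.mem_span_singleton.1 h2
    exact ⟨a, ha.symm⟩
  choose a ha using h1
  have h3 : r ∈ Ideal.span (Set.range u) := by
    rw [hr]
    exact Submodule.mem_span_singleton_self r
  obtain ⟨c, hc⟩ := (Ideal.mem_span_range_iff_exists_fun).1 h3
  by_cases h : ∃ k, IsUnit (a k)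
  · obtain ⟨k, hk⟩ := h
    obtain ⟨w, hw⟩ := hk
    refine ⟨k, fun l => a l * (↑w⁻¹ : R), ?_⟩
    intro l
    rw [ha l, ha k, ← hw]
    have : (↑w⁻¹ : R) * (↑w : R) = 1 := Units.inv_mul w
    calc a l * r = a l * ((↑w⁻¹ : R) * (↑w : R)) * r := by rw [this, mul_one]
      _ = _ := by ring
  · push Not at h
    have h4 : ∀ l, a l ∈ IsLocalRing.maximalIdeal R := fun l =>
      (IsLocalRing.mem_maximalIdeal _).2 (h l)
    have h5 : (∑ l, c l * a l) ∈ IsLocalRing.maximalIdeal R :=
      Ideal.sum_mem _ fun l _ => Ideal.mul_mem_left _ _ (h4 l)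
    have h6 : IsUnit (1 - ∑ l, c l * a l) := by
      by_contra h7
      have h8 : (1 - ∑ l, c l * a l) ∈ IsLocalRing.maximalIdeal R :=
        (IsLocalRing.mem_maximalIdeal _).2 h7
      have h9 := Ideal.add_mem _ h8 h5
      rw [sub_add_cancel] at h9
      exact (Ideal.ne_top_iff_one _).1 (IsLocalRing.maximalIdeal.isMaximal R).ne_top h9
    have h10 : (1 - ∑ l, c l * a l) * r = 0 := by
      have h11 : ∑ l, c l * u l = (∑ l, c l * a l) * r := by
        rw [Finset.sum_mul]
        refine Finset.sum_congr rfl fun l _ => ?_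
        rw [ha l]
        ring
      rw [sub_mul, one_mul, ← h11, hc, sub_self]
    have h12 : r = 0 := h6.mul_right_eq_zero.1 h10
    refine ⟨⟨0, by omega⟩, fun _ => 0, ?_⟩
    intro l
    rw [ha l, h12, mul_zero, zero_mul]

theorem ann_card (a : R) :
    Nat.card {w : R // a * w = 0} * Nat.card (Ideal.span {a} : Ideal R) = Nat.card R := by
  have h1 := (AddMonoidHom.mulLeft a).ker.card_mul_index
  rw [AddSubgroup.index_ker] at h1
  have h2 : Nat.card {w : R // a * w = 0} = Nat.card (AddMonoidHom.mulLeft a).ker := by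
    refine Nat.card_congr (Equiv.subtypeEquivRight fun w => ?_)
    rw [AddMonoidHom.mem_ker]
    rfl
  have h3 : Nat.card (Ideal.span {a} : Ideal R) = Nat.card (AddMonoidHom.mulLeft a).range := by
    refine Nat.card_congr (Equiv.subtypeEquivRight fun w => ?_)
    rw [Ideal.mem_span_singleton', AddMonoidHom.mem_range]
    constructor
    · rintro ⟨b, hb⟩
      exact ⟨b, by rw [← hb, mul_comm]; rfl⟩
    · rintro ⟨b, hb⟩
      exact ⟨b, by rw [← hb, mul_comm]; rfl⟩
  rw [h2, h3]
  exact h1

open Classical in
/-- the number of the `v` for given `u` -/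
theorem fib [Fintype R] [IsLocalRing R] [IsPrincipalIdealRing R] (n : ℕ) (hn : 1 ≤ n)
    (u : Fin n → R) :
    (Finset.univ.filter fun v : Fin n → R => ∀ j l, u j * v l = u l * v j).card *
      Nat.card (Ideal.span (Set.range u) : Ideal R) ^ (n - 1) ≤ Nat.card R ^ n := by
  obtain ⟨k, c, hc⟩ := gen n hn u
  have hI : Ideal.span (Set.range u) = Ideal.span {u k} := by
    apply le_antisymm
    · rw [Ideal.span_le]
      rintro _ ⟨l, rfl⟩
      rw [hc l]
      exact Ideal.mul_mem_left _ _ (Ideal.subset_span rfl)
    · rw [Ideal.span_le]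
      rintro _ rfl
      exact Ideal.subset_span ⟨k, rfl⟩
  let T : Finset (R × ({l : Fin n // l ≠ k} → R)) :=
    Finset.univ ×ˢ Fintype.piFinset fun _ => Finset.univ.filter fun w : R => u k * w = 0
  have hA : (Finset.univ.filter fun w : R => u k * w = 0).card =
      Nat.card {w : R // u k * w = 0} := by
    rw [Nat.card_eq_fintype_card, Fintype.card_subtype]
  have hT : T.card = Nat.card R * Nat.card {w : R // u k * w = 0} ^ (n - 1) := by
    rw [Finset.card_product, Fintype.card_piFinset, Finset.card_univ,
      Finset.prod_const, Finset.card_univ, hA, Nat.card_eq_fintype_card (α := R)]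
    have h1 : Fintype.card {l : Fin n // l ≠ k} = n - 1 := by
      rw [Fintype.card_subtype_compl]
      simp
    rw [h1]
  have hle : (Finset.univ.filter fun v : Fin n → R => ∀ j l, u j * v l = u l * v j).card ≤
      T.card := by
    refine Finset.card_le_card_of_injOn (fun v => (v k, fun l => v l.1 - c l.1 * v k)) ?_ ?_
    · intro v hv
      simp only [Finset.coe_filter, Finset.mem_univ, true_and, Set.mem_ofPred_eq] at hv
      simp only [T, Finset.coe_product, Finset.coe_univ, Set.mem_prod, Set.mem_univ, true_and,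
        Finset.mem_coe, Fintype.mem_piFinset, Finset.mem_filter, Finset.mem_univ]
      intro l
      have h1 := hv k l.1
      rw [hc l.1] at h1
      rw [mul_sub, h1]
      ring
    · intro v _ v' _ h
      simp only [Prod.mk.injEq] at h
      obtain ⟨h1, h2⟩ := h
      funext l
      by_cases hl : l = k
      · rw [hl]; exact h1
      · have h3 := congrFun h2 ⟨l, hl⟩
        simp only [h1] at h3
        exact sub_left_injective h3
  rw [hI]
  refine (Nat.mul_le_mul_right _ hle).trans ?_
  rw [hT, mul_assoc, ← mul_pow, ann_card]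
  rw [← pow_succ']
  have : n - 1 + 1 = n := by omega
  rw [this]

end

theorem pf_PUV : T_PUV := by
  classical
  intro R _ _ _ _ n 𝒥 hn h𝒥
  have : Fintype R := Fintype.ofFinite R
  let S : Ideal R → Finset ((Fin n → R) × (Fin n → R)) := fun I =>
    Finset.univ.filter fun q => (∀ j l, q.1 j * q.2 l = q.1 l * q.2 j) ∧
      Ideal.span (Set.range q.1) = I
  have hpos : ∀ I : Ideal R, 0 < Nat.card I := fun I => Nat.card_pos
  have hS : ∀ I : Ideal R, (S I).card ≤ Nat.card R ^ n * Nat.card I := by
    intro I
    let U : Finset (Fin n → R) := Finset.univ.filter fun u => Ideal.span (Set.range u) = I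
    have hU : U.card ≤ Nat.card I ^ n := by
      have h1 : U ⊆ Fintype.piFinset fun _ : Fin n => Finset.univ.filter fun x : R => x ∈ I := by
        intro u hu
        simp only [U, Finset.mem_filter, Finset.mem_univ, true_and] at hu
        simp only [Fintype.mem_piFinset, Finset.mem_filter, Finset.mem_univ, true_and]
        intro l
        rw [← hu]
        exact Ideal.subset_span ⟨l, rfl⟩
      refine (Finset.card_le_card h1).trans ?_
      rw [Fintype.card_piFinset, Finset.prod_const, Finset.card_univ, Fintype.card_fin]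
      refine Nat.pow_le_pow_left (le_of_eq ?_) _
      rw [Nat.card_eq_fintype_card, ← Fintype.card_subtype]
    have hsum : (S I).card = ∑ u ∈ U, ((S I).filter fun q => q.1 = u).card := by
      refine Finset.card_eq_sum_card_fiberwise ?_
      intro q hq
      simp only [S, Finset.coe_filter, Finset.mem_univ, true_and, Set.mem_ofPred_eq] at hq
      simp only [U, Finset.coe_filter, Finset.mem_univ, true_and, Set.mem_ofPred_eq]
      exact hq.2
    have hfib : ∀ u ∈ U, ((S I).filter fun q => q.1 = u).card * Nat.card I ^ (n - 1) ≤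
        Nat.card R ^ n := by
      intro u hu
      simp only [U, Finset.mem_filter, Finset.mem_univ, true_and] at hu
      have h1 := fib n hn u
      rw [hu] at h1
      refine le_trans (Nat.mul_le_mul_right _ ?_) h1
      refine Finset.card_le_card_of_injOn Prod.snd ?_ ?_
      · intro q hq
        simp only [S, Finset.coe_filter, Finset.mem_filter, Finset.mem_univ, true_and,
          Set.mem_ofPred_eq] at hq ⊢
        obtain ⟨⟨h3, _⟩, h4⟩ := hq
        rw [← h4]
        exact h3
      · intro q hq q' hq' h
        simp only [S, Finset.coe_filter, Finset.mem_filter, Finset.mem_univ, true_and,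
          Set.mem_ofPred_eq] at hq hq'
        exact Prod.ext (hq.2.trans hq'.2.symm) h
    have h2 : (S I).card * Nat.card I ^ (n - 1) ≤
        (Nat.card R ^ n * Nat.card I) * Nat.card I ^ (n - 1) := by
      rw [hsum, Finset.sum_mul]
      calc ∑ u ∈ U, ((S I).filter fun q => q.1 = u).card * Nat.card I ^ (n - 1)
          ≤ ∑ _u ∈ U, Nat.card R ^ n := Finset.sum_le_sum hfib
        _ = U.card * Nat.card R ^ n := by rw [Finset.sum_const, smul_eq_mul]
        _ ≤ Nat.card I ^ n * Nat.card R ^ n := Nat.mul_le_mul_right _ hU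
        _ = (Nat.card R ^ n * Nat.card I) * Nat.card I ^ (n - 1) := by
          have h3 : Nat.card I ^ n = Nat.card I * Nat.card I ^ (n - 1) := by
            rw [← pow_succ']
            congr 1
            omega
          rw [h3]
          ring
    exact Nat.le_of_mul_le_mul_right h2 (pow_pos (hpos I) _)
  rw [Nat.card_eq_fintype_card, Fintype.card_subtype]
  have hcov : (Finset.univ.filter fun q : (Fin n → R) × (Fin n → R) =>
      ∀ j l, q.1 j * q.2 l = q.1 l * q.2 j) ⊆ 𝒥.biUnion S := by
    intro q hq
    simp only [Finset.mem_filter, Finset.mem_univ, true_and] at hq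
    rw [Finset.mem_biUnion]
    refine ⟨Ideal.span (Set.range q.1), h𝒥 _, ?_⟩
    simp only [S, Finset.mem_filter, Finset.mem_univ, true_and]
    exact ⟨hq, trivial⟩
  calc _ ≤ (𝒥.biUnion S).card := Finset.card_le_card hcov
    _ ≤ ∑ I ∈ 𝒥, (S I).card := Finset.card_biUnion_le
    _ ≤ ∑ I ∈ 𝒥, Nat.card R ^ n * Nat.card I := Finset.sum_le_sum fun I _ => hS I
    _ = _ := by rw [Finset.mul_sum]

end Pool.Agent.H75.RK
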