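import Pool.Agent.H75.RK.SECa

/-!
# MP_63b6b1_nt, number fields: row SEC of the board `hpk_modules`, the second moment
-/

set_option autoImplicit false

open Finset NumberField Pool.Agent.H32.RQ Pool.Agent.H32.RK

namespace Pool.Agent.H75.RK

section

variable {K : Type} [Field K] [NumberField K]

/-- the largest minor at the place `w` -/
noncomputable def dw {s : ℕ} [NeZero s] (x y : Fin s → 𝓞 K) (w : InfinitePlace K) : ℝ :=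
  (Finset.univ : Finset (Fin s × Fin s)).sup' Finset.univ_nonempty
    fun p => w ((mnr x y p.1 p.2 : 𝓞 K) : K)

omit [NumberField K] in
theorem le_dw {s : ℕ} [NeZero s] (x y : Fin s → 𝓞 K) (w : InfinitePlace K) (i j : Fin s) :
    w ((mnr x y i j : 𝓞 K) : K) ≤ dw x y w :=
  Finset.le_sup' (fun p : Fin s × Fin s => w ((mnr x y p.1 p.2 : 𝓞 K) : K))
    (Finset.mem_univ (i, j))

omit [NumberField K] in
theorem dw_le {s : ℕ} [NeZero s] (x y : Fin s → 𝓞 K) (w : InfinitePlace K) :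
    ∃ i j, dw x y w ≤ w ((mnr x y i j : 𝓞 K) : K) := by
  obtain ⟨p, _, hp⟩ := Finset.exists_mem_eq_sup' (Finset.univ_nonempty (α := Fin s × Fin s))
    (fun p : Fin s × Fin s => w ((mnr x y p.1 p.2 : 𝓞 K) : K))
  exact ⟨p.1, p.2, le_of_eq hp⟩

theorem dw_pos {s : ℕ} [NeZero s] (x y : Fin s → 𝓞 K) (w : InfinitePlace K)
    (h : ∃ i j, mnr x y i j ≠ 0) : 0 < dw x y w := by
  obtain ⟨i, j, hij⟩ := h
  refine lt_of_lt_of_le ?_ (le_dw x y w i j)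
  rw [InfinitePlace.pos_iff]
  intro h0
  exact hij (RingOfIntegers.ext (by simpa using h0))

theorem dw_bd {s : ℕ} [NeZero s] (x y : Fin s → 𝓞 K) (w : InfinitePlace K) (B : ℝ) (hB : 0 ≤ B)
    (hx : Bd B x) (hy : Bd B y) : dw x y w ≤ 2 * B ^ 2 := by
  obtain ⟨i, j, h⟩ := dw_le x y w
  refine h.trans ?_
  have h1 : ((mnr x y i j : 𝓞 K) : K) = ((x i * y j : 𝓞 K) : K) - ((x j * y i : 𝓞 K) : K) := by
    unfold mnr
    exact map_sub (algebraMap (𝓞 K) K) _ _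
  rw [h1]
  calc w (((x i * y j : 𝓞 K) : K) - ((x j * y i : 𝓞 K) : K))
      ≤ w ((x i * y j : 𝓞 K) : K) + w ((x j * y i : 𝓞 K) : K) := wsub w _ _
    _ = w (x i : K) * w (y j : K) + w (x j : K) * w (y i : K) := by rw [wmul, wmul]
    _ ≤ B * B + B * B := by
        apply add_le_add
        · exact mul_le_mul (hx i w) (hy j w) (apply_nonneg w _) hB
        · exact mul_le_mul (hx j w) (hy i w) (apply_nonneg w _) hB
    _ = 2 * B ^ 2 := by ring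

theorem ind_alg (s d : ℕ) (hs : 6 ≤ s) (hd : 1 ≤ d) (b H C S P w δ : ℝ) (hb : 0 < b)
    (hH : 0 < H) :
    2 * C ^ 2 / (H ^ (4 * d) * b ^ (16 * d)) * (S * (P * b ^ (8 * d)) *
      (2 * b ^ 8) ^ (d * (s - 3) - 1) * ((2 * b ^ 8) * (1 / w + δ))) =
      2 * C ^ 2 * S * P * 2 ^ (d * (s - 3)) *
        (((b ^ (4 * (s - 4)) / H ^ 2) ^ d) ^ 2 * (1 / w + δ)) := by
  have h1 : (2 * b ^ 8) ^ (d * (s - 3) - 1) * ((2 * b ^ 8) * (1 / w + δ)) =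
      (2 * b ^ 8) ^ (d * (s - 3)) * (1 / w + δ) := by
    rw [← mul_assoc, ← pow_succ]
    congr 2
    have : 1 ≤ d * (s - 3) := Nat.mul_pos hd (by omega)
    omega
  have h2 : b ^ (8 * d) * (b ^ 8) ^ (d * (s - 3)) = ((b ^ (4 * (s - 4))) ^ d) ^ 2 *
      b ^ (16 * d) := by
    rw [← pow_mul, ← pow_mul, ← pow_mul, ← pow_add, ← pow_add]
    congr 1
    obtain ⟨m, rfl⟩ : ∃ m, s = m + 4 := ⟨s - 4, by omega⟩
    rw [Nat.add_sub_cancel]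
    have : m + 4 - 3 = m + 1 := by omega
    rw [this]
    ring
  have h3 : H ^ (4 * d) = ((H ^ 2) ^ d) ^ 2 := by
    rw [← pow_mul, ← pow_mul]
    congr 1
    ring
  have h4 : (0 : ℝ) < (H ^ 2) ^ d := by positivity
  have h5 : (0 : ℝ) < b ^ (16 * d) := by positivity
  calc _ = 2 * C ^ 2 / (H ^ (4 * d) * b ^ (16 * d)) * (S * P * b ^ (8 * d) *
        ((2 * b ^ 8) ^ (d * (s - 3) - 1) * ((2 * b ^ 8) * (1 / w + δ)))) := by ring
    _ = 2 * C ^ 2 / (H ^ (4 * d) * b ^ (16 * d)) * (S * P * 2 ^ (d * (s - 3)) *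
        (b ^ (8 * d) * (b ^ 8) ^ (d * (s - 3))) * (1 / w + δ)) := by
        rw [h1, mul_pow]
        ring
    _ = _ := by
        rw [h2, h3, div_pow, div_pow]
        field_simp

end

theorem pf_SEC (K : Type) [Field K] [NumberField K] (hPAG : T_PAG K) (hSMM : T_SMM K)
    (hPBD : T_PBD K) (hPKP : T_PKP K) (hDIA : T_DIA K) (hDEP : T_DEP K) (hNRM : T_NRM K)
    (hUPP : T_UPP K) : T_SEC K := by
  classical
  intro ι _ _ ω s hs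
  obtain ⟨C₁, hC₁, hdep⟩ := sec_dep hPKP hDIA hDEP hUPP ι ω s hs
  obtain ⟨C₂, hC₂, hB⟩ := hPBD ι ω s (by omega)
  obtain ⟨C₃, hC₃, hS⟩ := hSMM s hs
  obtain ⟨C₄, hC₄, hG⟩ := hPAG s
  obtain ⟨N1, _, _, _, _, N6, N7⟩ := hNRM
  have hd1 : 1 ≤ dg K := Module.finrank_pos
  set C₅ : ℝ := 2 * C₂ ^ 2 * C₃ * C₄ * 2 ^ (dg K * (s - 3)) with hC₅
  have hC₅0 : 0 ≤ C₅ := by positivity
  refine ⟨C₁ + C₂ + C₅, by linarith, ?_⟩
  intro b A J Q W T w₀ _ c δ hb hA hc hQ hJ hW hWQ hTQ hWT hw hgw hδ hT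
  have hbr : (1 : ℝ) ≤ b := by exact_mod_cast hb
  have hb0 : (0 : ℝ) < b := by linarith
  have hA1 : (1 : ℝ) ≤ A := by linarith
  have hA1' : 1 ≤ A := by exact_mod_cast hA1
  have hH : (0 : ℝ) < 2 * A := by linarith
  have hb4 : (0 : ℝ) ≤ (b : ℝ) ^ 4 := by positivity
  have hb16 : (0 : ℝ) ≤ (b : ℝ) ^ 16 := by positivity
  have hwr : (1 : ℝ) ≤ w₀ := by exact_mod_cast hw
  have hJb : b ^ 8 ≤ J := by
    have h1 : (b : ℝ) ^ 8 ≤ J := by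
      calc (b : ℝ) ^ 8 ≤ (b : ℝ) ^ 16 := pow_le_pow_right₀ hbr (by norm_num)
        _ = 1 * (b : ℝ) ^ 16 := (one_mul _).symm
        _ ≤ (C₁ + C₂ + C₅) * (b : ℝ) ^ 16 := mul_le_mul_of_nonneg_right (by linarith) hb16
        _ ≤ J := hJ
    exact_mod_cast h1
  have hJ1 : 1 ≤ J := le_trans (Nat.one_le_pow _ _ hb) hJb
  have hc1 : C₁ * (b : ℝ) ^ 4 ≤ c * A :=
    le_trans (mul_le_mul_of_nonneg_right (by linarith) hb4) hc
  have hc2 : C₂ * (b : ℝ) ^ 4 ≤ c * A :=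
    le_trans (mul_le_mul_of_nonneg_right (by linarith) hb4) hc
  have hJ2 : C₂ * (b : ℝ) ^ 16 ≤ J :=
    le_trans (mul_le_mul_of_nonneg_right (by linarith) hb16) hJ
  have is : NeZero s := ⟨by omega⟩
  rw [← Finset.sum_product' (f := fun x y => 2 * pk ω Q J W T x y * pp ω Q J x y)]
  rw [← Finset.sum_filter_add_sum_filter_not (GS K s b c ×ˢ GS K s b c)
    (fun q => ∃ i j, mnr q.1 q.2 i j ≠ 0)]
  have hdp := hdep b A J Q W T c ((GS K s b c ×ˢ GS K s b c).filter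
    fun q => ¬ ∃ i j, mnr q.1 q.2 i j ≠ 0) hb (by linarith) hc1 hQ hJb hW hWQ hTQ hWT (by
      intro q hq
      rw [Finset.mem_filter, Finset.mem_product] at hq
      refine ⟨hq.1.1, hq.1.2, fun i j => ?_⟩
      by_contra h
      exact hq.2 ⟨i, j, h⟩)
  set P := (GS K s b c ×ˢ GS K s b c).filter (fun q => ∃ i j, mnr q.1 q.2 i j ≠ 0) with hP
  have hPm : ∀ q ∈ P, Gd b c q.1 ∧ Gd b c q.2 ∧ ∃ i j, mnr q.1 q.2 i j ≠ 0 := by
    intro q hq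
    rw [hP, Finset.mem_filter, Finset.mem_product] at hq
    exact ⟨mem_GS.1 hq.1.1, mem_GS.1 hq.1.2, hq.2⟩
  have hD : ∀ q ∈ P, ∀ w : InfinitePlace K, 0 < dw q.1 q.2 w ∧
      ∃ i j, dw q.1 q.2 w ≤ w ((mnr q.1 q.2 i j : 𝓞 K) : K) := fun q hq w =>
    ⟨dw_pos _ _ w (hPm q hq).2.2, dw_le _ _ w⟩
  have hDM : ∀ q ∈ P, ∀ w : InfinitePlace K, dw q.1 q.2 w ≤ 2 * (b : ℝ) ^ 8 := by
    intro q hq w
    obtain ⟨g1, g2, _⟩ := hPm q hq
    calc dw q.1 q.2 w ≤ 2 * ((b : ℝ) ^ 4) ^ 2 := dw_bd _ _ w _ hb4 g1.bd g2.bd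
      _ = 2 * (b : ℝ) ^ 8 := by ring
  have hgi : ∀ q ∈ P, gi q.1 q.2 ≠ ⊥ ∧ (Ideal.absNorm (gi q.1 q.2) : ℝ) ≤ pm (dw q.1 q.2) := by
    intro q hq
    obtain ⟨_, _, i, j, hij⟩ := hPm q hq
    have hm : mnr q.1 q.2 i j ∈ gi q.1 q.2 := Ideal.subset_span ⟨(i, j), rfl⟩
    refine ⟨?_, ?_⟩
    · intro h
      rw [h] at hm
      exact hij (by simpa using hm)
    · refine (N1 (gi q.1 q.2) (mnr q.1 q.2 i j) hm hij).trans ?_
      refine N6 _ _ (fun w => apply_nonneg w _) (fun w => le_dw _ _ w i j)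
  set κ : ℝ := (T : ℝ) / A with hκ
  have hκ0 : 0 ≤ κ := by positivity
  have hκδ : κ ≤ δ * (b : ℝ) ^ 8 := by
    rw [hκ, div_le_iff₀ (by linarith)]
    linarith [hT]
  have hterm : ∀ q ∈ P, 2 * pk ω Q J W T q.1 q.2 * pp ω Q J q.1 q.2 ≤
      2 * C₂ ^ 2 / ((2 * (A : ℝ)) ^ (4 * dg K) * (b : ℝ) ^ (16 * dg K)) *
      ((Ideal.absNorm (gi q.1 q.2) : ℝ) ^ 2 / pm (dw q.1 q.2) ^ 2 *
        (if (W : 𝓞 K) ∈ gi q.1 q.2 then κ * ∑ v, 1 / dw q.1 q.2 v else 1)) := by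
    intro q hq
    obtain ⟨g1, g2, g3⟩ := hPm q hq
    obtain ⟨k1, k2⟩ := hPKP ι ω s Q J W T q.1 q.2 hJ1 hW hWQ hTQ hWT
    obtain ⟨k3, k4⟩ := hB b A J Q W T c q.1 q.2 (dw q.1 q.2) hb hA1' hc2 hQ hJ2 hW hWQ
      hTQ hWT g1 g2 (hD q hq)
    have hpd : 0 < pm (dw q.1 q.2) := N7 _ fun w => (hD q hq w).1
    set N : ℝ := (Ideal.absNorm (gi q.1 q.2) : ℝ) with hN
    have hN0 : 0 ≤ N := Nat.cast_nonneg _
    set Y : ℝ := (2 * (A : ℝ)) ^ (2 * dg K) * (b : ℝ) ^ (8 * dg K) * pm (dw q.1 q.2) with hY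
    have hY0 : 0 < Y := by positivity
    have hYY : Y * Y = (2 * (A : ℝ)) ^ (4 * dg K) * (b : ℝ) ^ (16 * dg K) *
        pm (dw q.1 q.2) ^ 2 := by
      have e1 : (2 * (A : ℝ)) ^ (4 * dg K) = (2 * (A : ℝ)) ^ (2 * dg K) *
          (2 * (A : ℝ)) ^ (2 * dg K) := by
        rw [← pow_add]
        congr 1
        ring
      have e2 : (b : ℝ) ^ (16 * dg K) = (b : ℝ) ^ (8 * dg K) * (b : ℝ) ^ (8 * dg K) := by
        rw [← pow_add]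
        congr 1
        ring
      rw [hY, e1, e2]
      ring
    have k5 : pp ω Q J q.1 q.2 ≤ C₂ * N / Y := by
      rw [le_div_iff₀ hY0]
      exact k3
    have k6 : 0 ≤ pp ω Q J q.1 q.2 := k1.trans k2
    have k8 : 0 ≤ C₂ * N / Y := by positivity
    have e3 : ∀ X : ℝ, 2 * (C₂ * N / Y * X) * (C₂ * N / Y) =
        2 * C₂ ^ 2 / ((2 * (A : ℝ)) ^ (4 * dg K) * (b : ℝ) ^ (16 * dg K)) *
          (N ^ 2 / pm (dw q.1 q.2) ^ 2 * X) := by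
      intro X
      calc 2 * (C₂ * N / Y * X) * (C₂ * N / Y) = 2 * C₂ ^ 2 * N ^ 2 * X / (Y * Y) := by
            field_simp
        _ = _ := by
            rw [hYY]
            field_simp
    split_ifs with h
    · set SS : ℝ := ∑ v, 1 / dw q.1 q.2 v with hSS
      have hSS0 : 0 ≤ SS := Finset.sum_nonneg fun v _ =>
        div_nonneg zero_le_one (hD q hq v).1.le
      have k7 : pk ω Q J W T q.1 q.2 ≤ C₂ * N / Y * (κ * SS) := by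
        have e4 : C₂ * N / Y * (κ * SS) = C₂ * N * T * SS / (Y * A) := by
          rw [hκ]
          field_simp
        rw [e4, le_div_iff₀ (by positivity)]
        have := k4 h
        rw [← mul_assoc]
        exact this
      rw [← e3]
      apply mul_le_mul _ k5 k6 (by positivity)
      linarith
    · rw [← e3]
      apply mul_le_mul _ k5 k6 (by positivity)
      linarith
  have hcount : ∀ (𝔤 : Ideal (𝓞 K)) (E : InfinitePlace K → ℝ), 𝔤 ≠ ⊥ → (∀ v, 0 < E v) →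
      ((P.filter fun q => gi q.1 q.2 = 𝔤 ∧ ∀ v, dw q.1 q.2 v ≤ E v).card : ℝ) ≤
      C₄ * (b : ℝ) ^ (8 * dg K) * (pm E / Ideal.absNorm 𝔤) ^ (s - 1) := by
    intro 𝔤 E hg hE
    refine hG b c 𝔤 E _ hb hg hE ?_
    intro q hq
    rw [Finset.mem_filter] at hq
    obtain ⟨g1, g2, g3⟩ := hPm q hq.1
    exact ⟨g1, g2, g3, le_of_eq hq.2.1, fun i j w => (le_dw _ _ w i j).trans (hq.2.2 w)⟩
  have hM1 : (1 : ℝ) ≤ 2 * (b : ℝ) ^ 8 := by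
    have : (1 : ℝ) ≤ (b : ℝ) ^ 8 := one_le_pow₀ hbr
    linarith
  have hsum := hS _ P (fun q => gi q.1 q.2) (fun q => dw q.1 q.2)
    (fun q => (W : 𝓞 K) ∈ gi q.1 q.2) (2 * (b : ℝ) ^ 8) κ (C₄ * (b : ℝ) ^ (8 * dg K)) w₀ hM1
    (by positivity) hκ0 hw
    (fun q hq => ⟨(hgi q hq).1, fun v => ⟨(hD q hq v).1, hDM q hq v⟩, (hgi q hq).2⟩)
    (by
      intro q hq h
      by_contra hcon
      push Not at hcon
      exact h (hgw _ (hgi q hq).1 hcon)) hcount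
  have hind : ∑ q ∈ P, 2 * pk ω Q J W T q.1 q.2 * pp ω Q J q.1 q.2 ≤
      C₅ * ((((b : ℝ) ^ (4 * (s - 4)) / (2 * (A : ℝ)) ^ 2) ^ dg K) ^ 2 * (1 / w₀ + δ)) := by
    have hpre : (0 : ℝ) ≤ 2 * C₂ ^ 2 / ((2 * (A : ℝ)) ^ (4 * dg K) * (b : ℝ) ^ (16 * dg K)) := by
      positivity
    calc ∑ q ∈ P, 2 * pk ω Q J W T q.1 q.2 * pp ω Q J q.1 q.2
        ≤ ∑ q ∈ P, 2 * C₂ ^ 2 / ((2 * (A : ℝ)) ^ (4 * dg K) * (b : ℝ) ^ (16 * dg K)) *
          ((Ideal.absNorm (gi q.1 q.2) : ℝ) ^ 2 / pm (dw q.1 q.2) ^ 2 *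
            (if (W : 𝓞 K) ∈ gi q.1 q.2 then κ * ∑ v, 1 / dw q.1 q.2 v else 1)) :=
          Finset.sum_le_sum hterm
      _ = 2 * C₂ ^ 2 / ((2 * (A : ℝ)) ^ (4 * dg K) * (b : ℝ) ^ (16 * dg K)) *
          ∑ q ∈ P, ((Ideal.absNorm (gi q.1 q.2) : ℝ) ^ 2 / pm (dw q.1 q.2) ^ 2 *
            (if (W : 𝓞 K) ∈ gi q.1 q.2 then κ * ∑ v, 1 / dw q.1 q.2 v else 1)) := by
          rw [Finset.mul_sum]
      _ ≤ 2 * C₂ ^ 2 / ((2 * (A : ℝ)) ^ (4 * dg K) * (b : ℝ) ^ (16 * dg K)) *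
          (C₃ * (C₄ * (b : ℝ) ^ (8 * dg K)) * (2 * (b : ℝ) ^ 8) ^ (dg K * (s - 3) - 1) *
            (2 * (b : ℝ) ^ 8 / w₀ + κ)) := mul_le_mul_of_nonneg_left hsum hpre
      _ ≤ 2 * C₂ ^ 2 / ((2 * (A : ℝ)) ^ (4 * dg K) * (b : ℝ) ^ (16 * dg K)) *
          (C₃ * (C₄ * (b : ℝ) ^ (8 * dg K)) * (2 * (b : ℝ) ^ 8) ^ (dg K * (s - 3) - 1) *
            ((2 * (b : ℝ) ^ 8) * (1 / w₀ + δ))) := by
          apply mul_le_mul_of_nonneg_left _ hpre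
          apply mul_le_mul_of_nonneg_left _ (by positivity)
          have h1 : κ ≤ 2 * (b : ℝ) ^ 8 * δ := by
            refine hκδ.trans ?_
            have : 0 ≤ δ * (b : ℝ) ^ 8 := by positivity
            linarith
          calc 2 * (b : ℝ) ^ 8 / w₀ + κ ≤ 2 * (b : ℝ) ^ 8 / w₀ + 2 * (b : ℝ) ^ 8 * δ := by
                linarith
            _ = _ := by ring
      _ = _ := ind_alg s (dg K) hs hd1 b (2 * A) C₂ C₃ C₄ w₀ δ hb0 hH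
  have hpos1 : (0 : ℝ) ≤ (((b : ℝ) ^ (4 * (s - 4)) / (2 * (A : ℝ)) ^ 2) ^ dg K) ^ 2 *
      (1 / w₀ + δ) := by positivity
  have hpos2 : (0 : ℝ) ≤ ((b : ℝ) ^ (4 * (s - 4)) / (2 * (A : ℝ)) ^ 2) ^ dg K := by positivity
  calc _ ≤ _ := add_le_add hind hdp
    _ ≤ (C₁ + C₂ + C₅) * ((((b : ℝ) ^ (4 * (s - 4)) / (2 * (A : ℝ)) ^ 2) ^ dg K) ^ 2 *
        (1 / w₀ + δ)) + (C₁ + C₂ + C₅) * ((b : ℝ) ^ (4 * (s - 4)) / (2 * (A : ℝ)) ^ 2) ^ dg K :=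
        add_le_add (mul_le_mul_of_nonneg_right (by linarith) hpos1)
          (mul_le_mul_of_nonneg_right (by linarith) hpos2)
    _ = _ := by ring

end Pool.Agent.H75.RK
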