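import Pool.Agent.H75.RK.SECa
import Pool.Agent.H32.RK.TargetsE
import Pool.Agent.H32.RQ.MN

/-!
# MP_63b6b1_nt, number fields: row MN of the board `hpk_modules`

Almost all robust pairs have a small zero (adapted from `Pool.Agent.H32.RQ.MN`).
-/

set_option autoImplicit false

open Finset NumberField Pool.Agent.H32.RQ Pool.Agent.H32.RK

namespace Pool.Agent.H75.RK

/-- the main term -/
theorem mn_alg (s D : ℕ) (hs : 6 ≤ s) (η δ A b W T x μ : ℝ) (hη : 0 < η) (hδ : 0 < δ)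
    (hA : 0 < A) (hb : 0 < b) (hW : 0 < W) (hT : 0 < T) (hx : x = 4 * δ * A * b ^ 8)
    (hTx : T ≤ x) (hμ : μ = (b ^ (4 * (s - 4)) / (2 * A) ^ 2) ^ D) :
    η / 4 ^ D * μ ≤ (W / T) ^ (2 * D) * (η * δ ^ (2 * D) * b ^ (4 * s * D) / W ^ (2 * D)) := by
  have e1 : (W / T) ^ (2 * D) * (η * δ ^ (2 * D) * b ^ (4 * s * D) / W ^ (2 * D)) =
      η * δ ^ (2 * D) * b ^ (4 * s * D) / T ^ (2 * D) := by
    rw [div_pow]
    field_simp
  rw [e1, le_div_iff₀ (by positivity)]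
  have hTx2 : T ^ (2 * D) ≤ x ^ (2 * D) := pow_le_pow_left₀ hT.le hTx _
  have e2 : η / 4 ^ D * μ * x ^ (2 * D) = η * δ ^ (2 * D) * b ^ (4 * s * D) := by
    have h1 : b ^ (4 * s * D) = (b ^ (4 * (s - 4)) * (b ^ 8) ^ 2) ^ D := by
      rw [← pow_mul, ← pow_add, ← pow_mul]
      congr 1
      obtain ⟨m, rfl⟩ : ∃ m, s = m + 4 := ⟨s - 4, by omega⟩
      rw [Nat.add_sub_cancel]
      ring
    have h2 : x ^ (2 * D) = (16 * δ ^ 2 * A ^ 2 * (b ^ 8) ^ 2) ^ D := by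
      rw [pow_mul, hx]
      congr 1
      ring
    have h3 : δ ^ (2 * D) = (δ ^ 2) ^ D := pow_mul _ _ _
    rw [h1, h2, h3, hμ]
    have h4 : ∀ P R : ℝ, η / 4 ^ D * P ^ D * R ^ D = η * ((1 / 4) * P * R) ^ D := by
      intro P R
      rw [mul_pow, mul_pow, one_div_pow]
      ring
    rw [h4, mul_assoc η ((δ ^ 2) ^ D), ← mul_pow]
    congr 2
    field_simp
    ring
  rw [← e2]
  refine mul_le_mul_of_nonneg_left hTx2 ?_
  rw [hμ]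
  positivity

/-- the end of the proof -/
theorem mn_end (s D : ℕ) (C κ ε η μ A v δ E L : ℝ) (hC : 0 < C) (hη : 0 < η)
    (hμ0 : 0 < μ) (hA : 0 < A) (hE : 0 ≤ E)
    (hκ : κ = (4 / 10) ^ (2 * md s * D) * (η / 25 ^ D) ^ 2 * ε / (3 * C)) (hμk : 1 ≤ κ * μ)
    (hv : 1 / v ≤ κ) (hδ : 4 * δ ≤ κ) (h5 : η / 4 ^ D * μ ≤ L)
    (h4 : E * ((4 / 10) ^ (2 * md s * D) * (L * (4 / 10) ^ (2 * D)) ^ 2) ≤
      (2 * A) ^ (2 * md s * D) * (C * (μ ^ 2 * (1 / v + 4 * δ) + μ))) :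
    E ≤ ε * (2 * A) ^ (2 * md s * D) := by
  have h6 : (η / 25 ^ D * μ) ^ 2 ≤ (L * (4 / 10) ^ (2 * D)) ^ 2 := by
    refine pow_le_pow_left₀ (by positivity) ?_ 2
    have e0 : (1 : ℝ) / 25 ^ D = 1 / 4 ^ D * (4 / 10) ^ (2 * D) := by
      rw [pow_mul, ← one_div_pow, ← one_div_pow, ← mul_pow]
      congr 1
      norm_num
    calc η / 25 ^ D * μ = η * μ * (1 / 25 ^ D) := by ring
      _ = η / 4 ^ D * μ * (4 / 10) ^ (2 * D) := by rw [e0]; ring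
      _ ≤ L * (4 / 10) ^ (2 * D) := mul_le_mul_of_nonneg_right h5 (by positivity)
  have h7 : E * ((4 / 10) ^ (2 * md s * D) * (η / 25 ^ D * μ) ^ 2) ≤
      (2 * A) ^ (2 * md s * D) * (C * (μ ^ 2 * (1 / v + 4 * δ) + μ)) :=
    le_trans (mul_le_mul_of_nonneg_left (mul_le_mul_of_nonneg_left h6 (by positivity)) hE) h4
  have h8 : C * (μ ^ 2 * (1 / v + 4 * δ) + μ) ≤ C * (3 * κ) * μ ^ 2 := by
    have h9 : μ ≤ κ * μ ^ 2 := by
      calc μ = 1 * μ := (one_mul μ).symm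
        _ ≤ κ * μ * μ := mul_le_mul_of_nonneg_right hμk hμ0.le
        _ = κ * μ ^ 2 := by ring
    have h10 : μ ^ 2 * (1 / v + 4 * δ) ≤ μ ^ 2 * (κ + κ) :=
      mul_le_mul_of_nonneg_left (add_le_add hv hδ) (by positivity)
    calc C * (μ ^ 2 * (1 / v + 4 * δ) + μ) ≤ C * (μ ^ 2 * (κ + κ) + κ * μ ^ 2) :=
          mul_le_mul_of_nonneg_left (add_le_add h10 h9) hC.le
      _ = C * (3 * κ) * μ ^ 2 := by ring
  have h11 : C * (3 * κ) = (4 / 10) ^ (2 * md s * D) * (η / 25 ^ D) ^ 2 * ε := by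
    rw [hκ]
    field_simp
  rw [h11] at h8
  have h12 : E * ((4 / 10) ^ (2 * md s * D) * (η / 25 ^ D * μ) ^ 2) ≤
      ε * (2 * A) ^ (2 * md s * D) * ((4 / 10) ^ (2 * md s * D) * (η / 25 ^ D * μ) ^ 2) := by
    refine h7.trans ((mul_le_mul_of_nonneg_left h8 (by positivity)).trans (le_of_eq ?_))
    ring
  exact le_of_mul_le_mul_right h12 (by positivity)

/-- the modulus -/
theorem modulus (K : Type) [Field K] [NumberField K] (v t : ℕ) :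
    ∃ W : ℕ, 1 ≤ W ∧ (∀ 𝔤 : Ideal (𝓞 K), 𝔤 ≠ ⊥ → Ideal.absNorm 𝔤 ≤ v → (W : 𝓞 K) ∈ 𝔤) ∧
      ∀ 𝔤 : Ideal (𝓞 K), 𝔤 ≠ ⊥ → Ideal.absNorm 𝔤 ≤ v → (W : 𝓞 K) ∈ 𝔤 ^ (2 * t) := by
  have h0 : ∀ 𝔤 : Ideal (𝓞 K), 𝔤 ≠ ⊥ → Ideal.absNorm 𝔤 ≤ v → (v.factorial : 𝓞 K) ∈ 𝔤 := by
    intro 𝔤 hg hv
    have h1 : 0 < Ideal.absNorm 𝔤 := Nat.pos_of_ne_zero fun h => hg (Ideal.absNorm_eq_zero_iff.1 h)
    obtain ⟨m, hm⟩ := Nat.dvd_factorial h1 hv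
    rw [hm, Nat.cast_mul]
    exact Ideal.mul_mem_right _ _ (Ideal.absNorm_mem 𝔤)
  refine ⟨v.factorial ^ (2 * t + 1), Nat.one_le_pow _ _ (Nat.factorial_pos v), ?_, ?_⟩
  · intro 𝔤 hg hv
    rw [Nat.cast_pow]
    exact Ideal.pow_mem_of_mem _ (h0 𝔤 hg hv) _ (by omega)
  · intro 𝔤 hg hv
    rw [Nat.cast_pow, pow_succ]
    exact Ideal.mul_mem_right _ _ (Ideal.pow_mem_pow (h0 𝔤 hg hv) _)

open Classical in
theorem pf_MN (K : Type) [Field K] [NumberField K] (hVAR : T_VAR K) (hTRF : T_TRF K)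
    (hSEC : T_SEC K) (hLOC : T_LOC K) (hSPL : T_SPL K) (hCMP : T_CMP K) : T_MN K := by
  intro ι _ _ ω s d t w₀ hs hd
  have hDd : Fintype.card ι = dg K := (hCMP ι ω).1
  have hD1 : 1 ≤ dg K := Module.finrank_pos
  obtain ⟨r, η, δ₀, w₁, hr, hη, hδ₀, hL⟩ := hLOC ι ω s d t w₀ hs hd
  obtain ⟨C, hC, hS⟩ := hSEC ι ω s hs
  obtain ⟨C₂, hC₂, hTRF⟩ := hTRF ι ω
  refine ⟨r, hr, fun ε hε => ?_⟩
  obtain ⟨κ, hκ⟩ : ∃ κ : ℝ, κ = (4 / 10) ^ (2 * md s * dg K) * (η / 25 ^ dg K) ^ 2 * ε /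
    (3 * C) := ⟨_, rfl⟩
  have hC0 : 0 < C := by linarith
  have hκ0 : 0 < κ := by
    rw [hκ]
    positivity
  -- the constants
  obtain ⟨δ, hδd⟩ : ∃ δ : ℝ, δ = min δ₀ (κ / 4) := ⟨_, rfl⟩
  have hδ0 : 0 < δ := by
    rw [hδd]
    exact lt_min hδ₀ (by positivity)
  have hδ1 : δ ≤ δ₀ := by
    rw [hδd]
    exact min_le_left _ _
  have hδ2 : 4 * δ ≤ κ := by
    have : δ ≤ κ / 4 := by
      rw [hδd]
      exact min_le_right _ _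
    linarith
  obtain ⟨w₂, hw₂⟩ := exists_nat_ge (1 / κ)
  obtain ⟨v, hv1, hvw0, hvw1, hvw2⟩ : ∃ v : ℕ, 1 ≤ v ∧ w₀ ≤ v ∧ w₁ ≤ v ∧ w₂ ≤ v :=
    ⟨1 + w₀ + w₁ + w₂, by omega, by omega, by omega, by omega⟩
  have hwk : 1 / (v : ℝ) ≤ κ := by
    have h1 : (w₂ : ℝ) ≤ v := by exact_mod_cast hvw2
    have h2 : 1 / κ ≤ v := hw₂.trans h1
    have hw0 : (0 : ℝ) < v := by exact_mod_cast hv1
    rw [div_le_iff₀ hw0]
    rw [div_le_iff₀ hκ0] at h2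
    linarith
  obtain ⟨K₁', hK₁'⟩ := exists_nat_ge (4 / κ)
  obtain ⟨K₁, hK₁4, hK₁k'⟩ : ∃ K₁ : ℕ, 4 ≤ K₁ ∧ K₁' ≤ K₁ := ⟨4 + K₁', by omega, by omega⟩
  have hK₁k : 4 / κ ≤ K₁ := by
    have h1 : (K₁' : ℝ) ≤ K₁ := by exact_mod_cast hK₁k'
    exact hK₁'.trans h1
  -- the modulus
  obtain ⟨W, hWpos, hWg, hWp⟩ := modulus K v t
  obtain ⟨𝔴₀, 𝔴₁, hW, hcop, hWa, hWb, hWc⟩ := hSPL W w₀ hWpos
  have hWr : (1 : ℝ) ≤ W := by exact_mod_cast hWpos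
  have hspan : Ideal.span {(W : 𝓞 K)} ≠ ⊥ := by
    rw [Ne, Ideal.span_singleton_eq_bot]
    have : W ≠ 0 := by omega
    exact_mod_cast this
  have hW₁ : 𝔴₁ ≠ ⊥ := by
    intro h
    apply hspan
    rw [hW, h, Ideal.mul_bot]
  obtain ⟨CZ, hCZ⟩ : ∃ CZ : ℕ, CZ = 2 ^ (4 * (s - 4)) * K₁ := ⟨_, rfl⟩
  have hCZ1 : 1 ≤ CZ := by
    rw [hCZ]
    have : 0 < 2 ^ (4 * (s - 4)) * K₁ := by positivity
    exact this
  have hCZr : (1 : ℝ) ≤ CZ := by exact_mod_cast hCZ1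
  obtain ⟨b₀, hb₀⟩ := hL W v 𝔴₀ 𝔴₁ (C * CZ) δ hWpos (by positivity) hW hcop hWa
    (fun 𝔭 hp hp0 hpn => hWc 𝔭 _ hp hp0 hpn (hWp 𝔭 hp0 (hpn.trans hvw0))) hvw1
    (fun 𝔭 _ hp0 hpn => hWg 𝔭 hp0 hpn) hδ0 hδ1
  obtain ⟨A₁, hA₁⟩ := exists_nat_ge ((2 * (W : ℝ) + 2) / (2 * δ))
  obtain ⟨A₂, hA₂⟩ := exists_nat_ge C
  refine ⟨𝔴₁, CZ, A₁ + A₂ + b₀ ^ (4 * (s - 4)) + 1, hW₁, hWb, ?_⟩
  intro A hA
  have hAA1 : A₁ ≤ A := by omega
  have hAA2 : A₂ ≤ A := by omega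
  have hAb : b₀ ^ (4 * (s - 4)) ≤ A := by omega
  have hA1 : 1 ≤ A := by omega
  have hAr : (0 : ℝ) < A := by exact_mod_cast hA1
  have hAC : C ≤ A := by
    have h1 : (A₂ : ℝ) ≤ A := by exact_mod_cast hAA2
    linarith
  have hk : 1 ≤ 4 * (s - 4) := by omega
  obtain ⟨b, hb1, hbl, hbu⟩ := Mn.size (4 * (s - 4)) K₁ A hk (by omega) hA1
  rw [← hCZ] at hbu
  have hbr : (1 : ℝ) ≤ b := by exact_mod_cast hb1
  have hb0 : (0 : ℝ) < b := by linarith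
  have hbb : b₀ ≤ b := by
    by_contra h
    have h1 : b ^ (4 * (s - 4)) ≤ b₀ ^ (4 * (s - 4)) := Nat.pow_le_pow_left (by omega) _
    have h2 : K₁ * A ^ 2 ≤ A := (hbl.trans h1).trans hAb
    have h3 : 4 * A ≤ K₁ * A ^ 2 := Nat.mul_le_mul hK₁4 (Nat.le_self_pow (by norm_num) A)
    omega
  have hb4 : b ^ 4 ≤ CZ * A := by
    have h1 : (b ^ 4) ^ 2 ≤ (CZ * A) ^ 2 := by
      calc (b ^ 4) ^ 2 ≤ (b ^ 4) ^ (s - 4) :=
            Nat.pow_le_pow_right (Nat.one_le_pow _ _ hb1) (by omega)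
        _ = b ^ (4 * (s - 4)) := (pow_mul b 4 (s - 4)).symm
        _ ≤ CZ * A ^ 2 := hbu
        _ ≤ (CZ * A) ^ 2 := by
          rw [mul_pow]
          exact Nat.mul_le_mul_right _ (Nat.le_self_pow (by norm_num) CZ)
    exact (Nat.pow_le_pow_iff_left (by norm_num)).mp h1
  have hbC : C * (b : ℝ) ^ 4 ≤ C * CZ * A := by
    rw [mul_assoc]
    refine mul_le_mul_of_nonneg_left ?_ hC0.le
    exact_mod_cast hb4
  -- mu
  obtain ⟨μ, hμ⟩ : ∃ μ : ℝ, μ = ((b : ℝ) ^ (4 * (s - 4)) / (2 * A) ^ 2) ^ dg K := ⟨_, rfl⟩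
  have hμ1 : (K₁ : ℝ) / 4 ≤ μ := by
    have h0 : (K₁ : ℝ) / 4 ≤ (b : ℝ) ^ (4 * (s - 4)) / (2 * A) ^ 2 := by
      rw [le_div_iff₀ (by positivity)]
      have h1 : (K₁ : ℝ) * (A : ℝ) ^ 2 ≤ (b : ℝ) ^ (4 * (s - 4)) := by exact_mod_cast hbl
      calc (K₁ : ℝ) / 4 * (2 * A) ^ 2 = K₁ * (A : ℝ) ^ 2 := by ring
        _ ≤ _ := h1
    have h2 : (1 : ℝ) ≤ (K₁ : ℝ) / 4 := by
      have : (4 : ℝ) ≤ K₁ := by exact_mod_cast hK₁4
      linarith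
    rw [hμ]
    exact h0.trans (le_self_pow₀ (h2.trans h0) (by omega))
  have hμ0 : 0 < μ := by
    refine lt_of_lt_of_le ?_ hμ1
    have : (0 : ℝ) < K₁ := by
      have : 0 < K₁ := by omega
      exact_mod_cast this
    positivity
  have hμk : 1 ≤ κ * μ := by
    have h1 : 4 / κ ≤ 4 * μ := by linarith
    rw [div_le_iff₀ hκ0] at h1
    linarith
  -- T
  obtain ⟨x, hx⟩ : ∃ x : ℝ, x = 4 * δ * A * (b : ℝ) ^ 8 := ⟨_, rfl⟩
  have hx1 : 2 * (W : ℝ) + 2 ≤ x / 2 := by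
    rw [div_le_iff₀ (by positivity)] at hA₁
    have h1 : (A₁ : ℝ) ≤ A := by exact_mod_cast hAA1
    have h2 : (1 : ℝ) ≤ (b : ℝ) ^ 8 := one_le_pow₀ hbr
    have h3 : 2 * (W : ℝ) + 2 ≤ A * (2 * δ) :=
      hA₁.trans (mul_le_mul_of_nonneg_right h1 (by positivity))
    have h4 : A * (2 * δ) ≤ A * (2 * δ) * (b : ℝ) ^ 8 := le_mul_of_one_le_right (by positivity) h2
    rw [hx]
    linarith
  have hx0 : 0 ≤ x := by linarith
  obtain ⟨T, hT⟩ : ∃ T : ℕ, T = ⌊x⌋₊ := ⟨_, rfl⟩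
  have hTu : (T : ℝ) ≤ x := by
    rw [hT]
    exact Nat.floor_le hx0
  have hTl : x / 2 ≤ T := by
    have h1 := Nat.lt_floor_add_one x
    rw [← hT] at h1
    linarith
  have hT0 : (0 : ℝ) < T := by linarith
  have hTW : 2 * W ≤ T := by
    have h1 : (2 : ℝ) * W ≤ T := by linarith
    exact_mod_cast h1
  -- J, Q
  obtain ⟨N₁, hN₁⟩ := exists_nat_ge (C * (b : ℝ) ^ 16)
  obtain ⟨N₂, hN₂⟩ := exists_nat_ge (C₂ * md s * (b : ℝ) ^ 8)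
  obtain ⟨N, hN⟩ : ∃ N : ℕ, N = N₁ + N₂ + 2 := ⟨_, rfl⟩
  obtain ⟨J, hJ⟩ : ∃ J : ℕ, J = T * W * N := ⟨_, rfl⟩
  have hTpos : 1 ≤ T := by exact_mod_cast (Nat.cast_pos.mp hT0)
  have hJN : N ≤ J := by
    rw [hJ]
    exact Nat.le_mul_of_pos_left _ (Nat.mul_pos hTpos hWpos)
  have hJ1 : 1 ≤ J := by omega
  have hJ2 : 2 ≤ J := by omega
  have hJ16 : C * (b : ℝ) ^ 16 ≤ J := by
    have h1 : (N₁ : ℝ) ≤ J := by
      have : N₁ ≤ J := by omega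
      exact_mod_cast this
    linarith
  obtain ⟨Q, hQ⟩ : ∃ Q : ℕ, Q = 2 * A * J := ⟨_, rfl⟩
  have hQ0 : Q ≠ 0 := by
    rw [hQ]
    positivity
  have iQ : NeZero Q := ⟨hQ0⟩
  have hWQ : W ∣ Q := by
    rw [hQ, hJ]
    exact Dvd.intro (2 * A * T * N) (by ring)
  have hTQ : T ∣ Q := by
    rw [hQ, hJ]
    exact Dvd.intro (2 * A * W * N) (by ring)
  have h2JQ : 2 * J ≤ Q := by
    rw [hQ]
    exact Nat.mul_le_mul_right J (by omega)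
  have hQA : 2 * A < Q := by
    rw [hQ]
    have h1 : 2 * A * 2 ≤ 2 * A * J := Nat.mul_le_mul_left (2 * A) hJ2
    omega
  have hQB : C₂ * md s * A * ((b : ℝ) ^ 4) ^ 2 < Q := by
    have h1 : (N₂ : ℝ) < J := by
      have : N₂ < J := by omega
      exact_mod_cast this
    have h2 : C₂ * md s * (b : ℝ) ^ 8 < J := lt_of_le_of_lt hN₂ h1
    have hJ0 : (0 : ℝ) < J := by exact_mod_cast hJ1
    calc C₂ * md s * A * ((b : ℝ) ^ 4) ^ 2 = A * (C₂ * md s * (b : ℝ) ^ 8) := by ring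
      _ < (A : ℝ) * J := mul_lt_mul_of_pos_left h2 hAr
      _ ≤ 2 * (A : ℝ) * J := by
        have h3 := mul_pos hAr hJ0
        linarith
      _ = Q := by rw [hQ]; push_cast; ring
  have hQJ : (Q : ℝ) / J = 2 * A := by
    rw [hQ]
    push_cast
    have : (J : ℝ) ≠ 0 := by
      have : J ≠ 0 := by omega
      exact_mod_cast this
    field_simp
  -- the exceptional set
  obtain ⟨M₀, hM₀⟩ : ∃ M₀ : ℝ, M₀ = η * δ ^ (2 * dg K) * (b : ℝ) ^ (4 * s * dg K) /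
    (W : ℝ) ^ (2 * dg K) := ⟨_, rfl⟩
  have hM₀0 : 0 ≤ M₀ := by
    rw [hM₀]
    positivity
  obtain ⟨w'⟩ : Nonempty (InfinitePlace K) := inferInstance
  have key : ∀ E : Finset (Fin 2 → Mon s → ι → ℤ), E ⊆ bx ι s A →
      (∀ c ∈ E, (∀ w, RB w d r A (ec ω c)) ∧
      (∀ 𝔭 : Ideal (𝓞 K), 𝔭.IsPrime → 𝔭 ≠ ⊥ → Ideal.absNorm 𝔭 ≤ w₀ → PR t 𝔭 (ec ω c)) ∧
      Ideal.absNorm 𝔴₁ ^ (s - 2) ≤ 2 * am (cq 𝔴₁ (ec ω c)) ∧ ¬ SZ (CZ : ℝ) A (ec ω c)) →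
      (E.card : ℝ) ≤ ε * (2 * (A : ℝ)) ^ (2 * md s * dg K) := by
    intro E hEb hE
    have h1 := hTRF s A J Q W T ((b : ℝ) ^ 4) (GS K s b (C * CZ)) E M₀ hA1 hJ1 hQ hWpos hWQ hTQ
      hTW hQA hQB (fun x hx => (mem_GS.1 hx).bd) hEb hM₀0 (by
        intro c hc
        obtain ⟨hc1, hc2, hc3, hc4⟩ := hE c hc
        have hcb := hEb hc
        constructor
        · intro x hxS
          by_contra hno
          push Not at hno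
          apply hc4
          have hx := mem_GS.1 hxS
          refine ⟨x, ?_, hno, ?_⟩
          · intro h0
            obtain ⟨j, hj⟩ := hx.big w'
            rw [h0] at hj
            have h2 : w' (((0 : Fin s → 𝓞 K) j : 𝓞 K) : K) = 0 := by simp
            rw [h2] at hj
            have : (0 : ℝ) ≤ (b : ℝ) ^ 4 := by positivity
            linarith
          · intro j w
            calc w (x j : K) ^ (s - 4) ≤ ((b : ℝ) ^ 4) ^ (s - 4) :=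
                  pow_le_pow_left₀ (apply_nonneg w _) (hx.bd j w) _
              _ = (b : ℝ) ^ (4 * (s - 4)) := (pow_mul _ _ _).symm
              _ ≤ CZ * (A : ℝ) ^ 2 := by exact_mod_cast hbu
        · have h2 := hb₀ b A hbb hA1 c hcb hc1 hc2 hc3
          rw [hM₀]
          refine h2.trans (Nat.cast_le.mpr (Finset.card_le_card ?_))
          intro x hxx
          rw [Finset.mem_filter] at hxx ⊢
          refine ⟨hxx.1, fun i m => ⟨(hxx.2 i m).1, ?_⟩⟩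
          have h3 := (hxx.2 i m).2
          have h4 : 2 * |((ω.repr (qf (ec ω c i) x) m : ℤ) : ℝ)| ≤ T := by
            refine le_trans ?_ hTl
            rw [hx]
            linarith
          exact_mod_cast h4)
    have h2 := hVAR ι ω s Q J W T (GS K s b (C * CZ)) hJ1 h2JQ hWpos hWQ hTQ hTW
    have h3 := hS b A J Q W T v (C * CZ) (4 * δ) hb1 hAC hbC hQ hJ16 hWpos hWQ hTQ hTW hv1
      hWg (by positivity) (by
        refine hTu.trans (le_of_eq ?_)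
        rw [hx]
        ring)
    rw [hQJ] at h2
    rw [← hμ] at h3
    rw [hDd] at h1 h2
    have h4 : (E.card : ℝ) * ((4 / 10) ^ (2 * md s * dg K) *
        ((((W : ℝ) / T) ^ (2 * dg K) * M₀) * (4 / 10) ^ (2 * dg K)) ^ 2) ≤
        (2 * (A : ℝ)) ^ (2 * md s * dg K) * (C * (μ ^ 2 * (1 / v + 4 * δ) + μ)) := by
      have e0 : (((W : ℝ) / T) ^ (2 * dg K) * M₀) * (4 / 10) ^ (2 * dg K) =
          ((W : ℝ) / T) ^ (2 * dg K) * (4 / 10) ^ (2 * dg K) * M₀ := by ring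
      rw [e0]
      exact (h1.trans h2).trans (mul_le_mul_of_nonneg_left h3 (by positivity))
    have h5 := mn_alg s (dg K) hs η δ A b W T x μ hη hδ0 hAr hb0 (by linarith) hT0 hx hTu hμ
    rw [← hM₀] at h5
    exact mn_end s (dg K) C κ ε η μ A v δ E.card _ hC0 hη hμ0 hAr (Nat.cast_nonneg _) hκ hμk
      hwk hδ2 h5 h4
  have hfin := key _ (Finset.filter_subset _ _) (fun c hc => (Finset.mem_filter.1 hc).2)
  refine hfin.trans ?_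
  rw [hDd]
  refine mul_le_mul_of_nonneg_left ?_ hε.le
  exact pow_le_pow_left₀ (by positivity) (by linarith) _

end Pool.Agent.H75.RK
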