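import Pool.Agent.H32.RK.TargetsA
import Pool.Agent.H32.RK.TargetsB

/-!
# MP_63b6b1_nt, number fields: row SEC of the board `hpk_modules`, dependent vectors
-/

set_option autoImplicit false

open Finset NumberField Pool.Agent.H32.RQ Pool.Agent.H32.RK

namespace Pool.Agent.H75.RK

section

variable {K : Type} [Field K] [NumberField K]

theorem mem_vk {s : ℕ} {X : ℝ} {x : Fin s → 𝓞 K} : x ∈ vk K s X ↔ Bd X x := by
  unfold vk
  rw [Set.Finite.mem_toFinset]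
  rfl

theorem mem_GS {s b : ℕ} {c : ℝ} {x : Fin s → 𝓞 K} : x ∈ GS K s b c ↔ Gd b c x := by
  classical
  unfold Pool.Agent.H32.RK.GS
  rw [Finset.mem_filter, mem_vk]
  exact ⟨fun h => h.2, fun h => ⟨h.bd, h⟩⟩

open Classical in
/-- the integers of size at most `X` -/
noncomputable def iv (K : Type) [Field K] [NumberField K] (X : ℝ) : Finset (𝓞 K) :=
  (vk K 1 X).image fun x => x 0

theorem mem_iv {X : ℝ} {a : 𝓞 K} : a ∈ iv K X ↔ ∀ w : InfinitePlace K, w (a : K) ≤ X := by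
  classical
  unfold iv
  rw [Finset.mem_image]
  constructor
  · rintro ⟨x, hx, rfl⟩
    exact mem_vk.1 hx 0
  · intro h
    exact ⟨fun _ => a, mem_vk.2 fun _ => h, rfl⟩

theorem wsub (w : InfinitePlace K) (a b : K) : w (a - b) ≤ w a + w b := by
  rw [← InfinitePlace.norm_embedding_eq, ← InfinitePlace.norm_embedding_eq,
    ← InfinitePlace.norm_embedding_eq, map_sub]
  exact norm_sub_le _ _

omit [NumberField K] in
theorem wmul (w : InfinitePlace K) (a b : 𝓞 K) :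
    w ((a * b : 𝓞 K) : K) = w (a : K) * w (b : K) := by
  have h : ((a * b : 𝓞 K) : K) = (a : K) * (b : K) := map_mul (algebraMap (𝓞 K) K) a b
  rw [h, map_mul]

theorem card_iv (hUPP : T_UPP K) : ∃ C : ℝ, 1 ≤ C ∧ ∀ X : ℝ, 1 ≤ X →
    ((iv K X).card : ℝ) ≤ C * (2 * X) ^ dg K := by
  obtain ⟨C, hC, h⟩ := hUPP
  refine ⟨C, hC, fun X hX => h (iv K X) (2 * X) (by linarith) ?_⟩
  intro a ha b hb w
  have h1 := mem_iv.1 ha w
  have h2 := mem_iv.1 hb w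
  calc w ((a : K) - b) ≤ w (a : K) + w (b : K) := wsub w _ _
    _ ≤ 2 * X := by linarith

theorem card_vk (s : ℕ) (X : ℝ) : (vk K s X).card ≤ (iv K X).card ^ s := by
  classical
  have h1 : vk K s X ⊆ Fintype.piFinset fun _ : Fin s => iv K X := by
    intro x hx
    rw [Fintype.mem_piFinset]
    intro i
    exact mem_iv.2 (mem_vk.1 hx i)
  refine (Finset.card_le_card h1).trans (le_of_eq ?_)
  rw [Fintype.card_piFinset_const]

theorem card_GS (s b : ℕ) (c : ℝ) : (GS K s b c).card ≤ (iv K ((b : ℝ) ^ 4)).card ^ s := by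
  classical
  refine le_trans ?_ (card_vk s _)
  unfold Pool.Agent.H32.RK.GS
  exact Finset.card_filter_le _ _

theorem dep_alg (s d : ℕ) (hs : 6 ≤ s) (b H U D : ℝ) (hb : 0 < b) (hH : 0 < H) :
    (U * (2 * b ^ 4) ^ d) ^ s * (U * 4 ^ d) * (2 * (D / (H * b ^ 8) ^ d) ^ 2) =
      2 * U ^ s * U * 2 ^ (d * s) * 4 ^ d * D ^ 2 * (b ^ (4 * (s - 4)) / H ^ 2) ^ d := by
  have h1 : b ^ (d * (4 * s)) = (b ^ (4 * (s - 4))) ^ d * ((b ^ 8) ^ d) ^ 2 := by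
    rw [← pow_mul, ← pow_mul, ← pow_mul, ← pow_add]
    congr 1
    obtain ⟨m, rfl⟩ : ∃ m, s = m + 4 := ⟨s - 4, by omega⟩
    rw [Nat.add_sub_cancel]
    ring
  have h2 : (U * (2 * b ^ 4) ^ d) ^ s = U ^ s * (2 ^ (d * s) * b ^ (d * (4 * s))) := by
    rw [mul_pow, ← pow_mul, mul_pow, ← pow_mul]
    congr 3
    ring
  rw [h2, h1, div_pow, div_pow, mul_pow]
  have h3 : (0 : ℝ) < (b ^ 8) ^ d := by positivity
  have h4 : (0 : ℝ) < H ^ d := by positivity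
  have h5 : (H ^ 2) ^ d = (H ^ d) ^ 2 := by rw [← pow_mul, ← pow_mul, mul_comm]
  rw [h5]
  field_simp

theorem sec_dep (hPKP : T_PKP K) (hDIA : T_DIA K) (hDEP : T_DEP K) (hUPP : T_UPP K)
    (ι : Type) [Fintype ι] [DecidableEq ι] (ω : Module.Basis ι ℤ (𝓞 K)) (s : ℕ) (hs : 6 ≤ s) :
    ∃ C : ℝ, 1 ≤ C ∧ ∀ (b A J Q W T : ℕ) [NeZero Q] (c : ℝ)
      (P : Finset ((Fin s → 𝓞 K) × (Fin s → 𝓞 K))), 1 ≤ b → C ≤ A →
      C * (b : ℝ) ^ 4 ≤ c * A → Q = 2 * A * J → b ^ 8 ≤ J → 1 ≤ W → W ∣ Q → T ∣ Q → 2 * W ≤ T →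
      (∀ q ∈ P, q.1 ∈ GS K s b c ∧ q.2 ∈ GS K s b c ∧ ∀ i j, mnr q.1 q.2 i j = 0) →
      ∑ q ∈ P, 2 * pk ω Q J W T q.1 q.2 * pp ω Q J q.1 q.2 ≤
        C * ((b : ℝ) ^ (4 * (s - 4)) / (2 * (A : ℝ)) ^ 2) ^ dg K := by
  classical
  obtain ⟨D, hD, hDIA⟩ := hDIA ι ω s (by omega)
  obtain ⟨U, hU, hUc⟩ := card_iv hUPP
  set M : ℝ := 2 * U ^ s * U * 2 ^ (dg K * s) * 4 ^ dg K * D ^ 2 with hM
  have hM0 : 0 ≤ M := by positivity
  refine ⟨D + M, by linarith, ?_⟩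
  intro b A J Q W T _ c P hb hA hc hQ hJ hW hWQ hTQ hWT hP
  have hbr : (1 : ℝ) ≤ b := by exact_mod_cast hb
  have hb0 : (0 : ℝ) < b := by linarith
  have hb4 : (1 : ℝ) ≤ (b : ℝ) ^ 4 := one_le_pow₀ hbr
  have hJ1 : 1 ≤ J := le_trans (Nat.one_le_pow _ _ hb) hJ
  have hA1 : (1 : ℝ) ≤ A := by linarith
  have hH : (0 : ℝ) < 2 * A := by linarith
  have hcD : D * (b : ℝ) ^ 4 ≤ c * A := by
    refine le_trans ?_ hc
    exact mul_le_mul_of_nonneg_right (by linarith) (by positivity)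
  have hex : ∀ q ∈ P, ∃ u : 𝓞 K, (∀ i, q.2 i = u * q.1 i) ∧ u ∈ iv K 2 := by
    intro q hq
    obtain ⟨h1, h2, h3⟩ := hP q hq
    have g1 := mem_GS.1 h1
    have g2 := mem_GS.1 h2
    obtain ⟨u, hu⟩ := hDEP s q.1 q.2 g1.prm g2.prm h3
    refine ⟨u, hu, mem_iv.2 ?_⟩
    intro w
    obtain ⟨i, hi⟩ := g1.big w
    have h4 := g2.bd i w
    rw [hu i] at h4
    rw [wmul] at h4
    have h6 : 0 < w (q.1 i : K) := by linarith
    by_contra h7
    push Not at h7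
    have h8 : 2 * w (q.1 i : K) < w ((u : 𝓞 K) : K) * w (q.1 i : K) :=
      mul_lt_mul_of_pos_right h7 h6
    linarith
  choose! f hf1 hf2 using hex
  have hterm : ∀ q ∈ P, 2 * pk ω Q J W T q.1 q.2 * pp ω Q J q.1 q.2 ≤
      2 * (D / (2 * A * (b : ℝ) ^ 8) ^ dg K) ^ 2 := by
    intro q hq
    obtain ⟨h1, h2, h3⟩ := hP q hq
    obtain ⟨k1, k2⟩ := hPKP ι ω s Q J W T q.1 q.2 hJ1 hW hWQ hTQ hWT
    have k3 := hDIA b A J Q c q.1 q.2 (f q) hb (by linarith) hcD hQ hJ (mem_GS.1 h1) (hf1 q hq)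
    have k4 : pp ω Q J q.1 q.2 ≤ D / (2 * A * (b : ℝ) ^ 8) ^ dg K := by
      rw [le_div_iff₀ (by positivity)]
      exact k3
    have k5 : 0 ≤ pp ω Q J q.1 q.2 := k1.trans k2
    have k6 : 0 ≤ D / (2 * A * (b : ℝ) ^ 8) ^ dg K := by positivity
    calc 2 * pk ω Q J W T q.1 q.2 * pp ω Q J q.1 q.2
        ≤ 2 * pp ω Q J q.1 q.2 * pp ω Q J q.1 q.2 := by
          apply mul_le_mul_of_nonneg_right _ k5
          linarith
      _ ≤ 2 * (D / (2 * A * (b : ℝ) ^ 8) ^ dg K) * (D / (2 * A * (b : ℝ) ^ 8) ^ dg K) := by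
          apply mul_le_mul _ k4 k5 (by positivity)
          linarith
      _ = _ := by ring
  have hcard : P.card ≤ (GS K s b c).card * (iv K 2).card := by
    rw [← Finset.card_product]
    refine Finset.card_le_card_of_injOn (fun q => (q.1, f q)) ?_ ?_
    · intro q hq
      have hq' : q ∈ P := hq
      simp only [Finset.coe_product, Set.mem_prod, Finset.mem_coe]
      exact ⟨(hP q hq').1, hf2 q hq'⟩
    · intro q hq q' hq' h
      have e1 : q ∈ P := hq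
      have e2 : q' ∈ P := hq'
      simp only [Prod.mk.injEq] at h
      obtain ⟨h1, h2⟩ := h
      refine Prod.ext h1 ?_
      funext i
      rw [hf1 q e1 i, hf1 q' e2 i, h1, h2]
  have hcard2 : (P.card : ℝ) ≤ (U * (2 * (b : ℝ) ^ 4) ^ dg K) ^ s * (U * 4 ^ dg K) := by
    have h1 : (P.card : ℝ) ≤ ((iv K ((b : ℝ) ^ 4)).card : ℝ) ^ s * ((iv K 2).card : ℝ) := by
      have h2 := hcard.trans (Nat.mul_le_mul_right _ (card_GS (K := K) s b c))
      exact_mod_cast h2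
    refine h1.trans ?_
    have h3 := hUc ((b : ℝ) ^ 4) hb4
    have h4 := hUc 2 (by norm_num)
    have h5 : (2 : ℝ) * 2 = 4 := by norm_num
    rw [h5] at h4
    exact mul_le_mul (pow_le_pow_left₀ (by positivity) h3 s) h4 (by positivity) (by positivity)
  calc ∑ q ∈ P, 2 * pk ω Q J W T q.1 q.2 * pp ω Q J q.1 q.2
      ≤ ∑ _q ∈ P, 2 * (D / (2 * A * (b : ℝ) ^ 8) ^ dg K) ^ 2 := Finset.sum_le_sum hterm
    _ = P.card * (2 * (D / (2 * A * (b : ℝ) ^ 8) ^ dg K) ^ 2) := by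
        rw [Finset.sum_const, nsmul_eq_mul]
    _ ≤ (U * (2 * (b : ℝ) ^ 4) ^ dg K) ^ s * (U * 4 ^ dg K) *
        (2 * (D / (2 * A * (b : ℝ) ^ 8) ^ dg K) ^ 2) :=
        mul_le_mul_of_nonneg_right hcard2 (by positivity)
    _ = M * ((b : ℝ) ^ (4 * (s - 4)) / (2 * (A : ℝ)) ^ 2) ^ dg K :=
        dep_alg s (dg K) hs b (2 * A) U D hb0 hH
    _ ≤ (D + M) * ((b : ℝ) ^ (4 * (s - 4)) / (2 * (A : ℝ)) ^ 2) ^ dg K := by
        apply mul_le_mul_of_nonneg_right _ (by positivity)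
        linarith

end

end Pool.Agent.H75.RK
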